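import Pool.Agent.W2helper86.OD.Final

/-!
# No OR-distillation (and no AND-distillation) by randomized circuits of constant depth

The definitions are in `Pool.Agent.W2helper86.OD.Defs` (`AC0Reduces`, `cnfSat`, `parityLang`,
`Compressor`, `AC0Distillable`, `SensitiveAt`, `PolySensitive`, `orFn`, `andFn`) and in
`Pool.Agent.H568R2.Defs` (circuits).
-/

set_option autoImplicit false

namespace Pool.Agent.Results.MP_609cce_lc.ConstantDepthDistillation

open Filter Pool.Agent.W2helper86.OD

theorem result :
    -- SAT, and every language which is hard for SAT under AC0 reductions, has no randomized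
    -- OR-distillation and no randomized AND-distillation of constant depth and polynomial size
    (¬ AC0Distillable cnfSat orFn ∧ ¬ AC0Distillable cnfSat andFn) ∧
    (∀ R : Set (List Bool), AC0Reduces cnfSat R →
      ¬ AC0Distillable R orFn ∧ ¬ AC0Distillable R andFn) ∧
    -- the same for every language to which PARITY reduces, and every function `F` of
    -- polynomially large sensitivity in place of OR and AND
    (∀ R : Set (List Bool), AC0Reduces cnfSat R ∨ AC0Reduces parityLang R →
      ∀ (F : (m : ℕ) → (Fin m → Bool) → Bool) (γ : ℝ), 0 < γ → PolySensitive F γ →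
        ¬ AC0Distillable R F) ∧
    -- the quantitative form, with exponential size
    (∀ R : Set (List Bool), AC0Reduces cnfSat R ∨ AC0Reduces parityLang R →
      ∃ (c : ℕ) (len : ℕ → ℕ), (∀ᶠ k in atTop, len k ≤ k ^ c + c) ∧
        ∀ (d : ℕ) (ε η : ℝ), 0 < ε → 0 < η → ∃ δ : ℝ, 0 < δ ∧ ∀ᶠ k : ℕ in atTop,
          ∀ (m Q : ℕ) (F : (Fin m → Bool) → Bool) (b : Fin m → Bool) (S : Finset (Fin m)),
            (m : ℝ) ≤ 2 ^ ((k : ℝ) ^ δ) → S.Nonempty → (Q : ℝ) * (k : ℝ) ^ ε ≤ S.card →
            SensitiveAt F b S →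
          ∀ K : Compressor m (len k) Q, K.DepthLE d → K.SizeLE (2 ^ ((k : ℝ) ^ δ)) →
            ∃ x : Fin m → Fin (len k) → Bool, K.success R F x < 1 / 2 + η) := by
  have hQ : ∀ R : Set (List Bool), AC0Reduces cnfSat R ∨ AC0Reduces parityLang R →
      Quant R := by
    rintro R (h | h)
    · obtain ⟨e, c, len, hP⟩ := PP_of_sat h
      exact quant_of_PP hP
    · obtain ⟨c, len, hP⟩ := PP_of_parity h
      exact quant_of_PP hP
  refine ⟨⟨?_, ?_⟩, ?_, ?_, ?_⟩
  · exact not_distillable (hQ _ (Or.inl (AC0Reduces_refl _))) orFn 1 one_pos orFn_sens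
  · exact not_distillable (hQ _ (Or.inl (AC0Reduces_refl _))) andFn 1 one_pos andFn_sens
  · intro R hR
    exact ⟨not_distillable (hQ R (Or.inl hR)) orFn 1 one_pos orFn_sens,
      not_distillable (hQ R (Or.inl hR)) andFn 1 one_pos andFn_sens⟩
  · intro R hR F γ hγ hF
    exact not_distillable (hQ R hR) F γ hγ hF
  · intro R hR
    exact hQ R hR

end Pool.Agent.Results.MP_609cce_lc.ConstantDepthDistillation
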