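import Pool.Agent.W2helper86.MD.Final

/-!
# No OR-distillation and no AND-distillation by circuits of constant depth with MOD p gates

The definitions are in `Pool.Agent.W2helper86.MD.Defs` (circuits with AND, OR, MOD `p` gates of
unbounded fan-in and NOT gates, `cnfSat`, `majLang`, `parityLang`, `Reduces`, `Compressor`,
`Compressor.Correct`, `Distillable`, `orFn`, `andFn`, `IsolatedAt`, `PolyIsolated`).
-/

set_option autoImplicit false

namespace Pool.Agent.Results.MP_609cce_lc.ModularDistillation

open Filter Pool.Agent.W2helper86.MD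

theorem result (p : ℕ) (hp : p.Prime) :
    -- SAT has no OR-distillation and no AND-distillation of constant depth and polynomial size
    (¬ Distillable p cnfSat orFn false ∧ ¬ Distillable p cnfSat andFn true) ∧
    -- the same for every language to which SAT or MAJORITY (or, for odd `p`, PARITY) reduces
    (∀ R : Set (List Bool), Reduces p cnfSat R ∨ Reduces p majLang R ∨
        (p ≠ 2 ∧ Reduces p parityLang R) →
      ¬ Distillable p R orFn false ∧ ¬ Distillable p R andFn true) ∧
    -- the same for functions `F` in place of OR and AND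
    (∀ R : Set (List Bool), Reduces p cnfSat R ∨ Reduces p majLang R ∨
        (p ≠ 2 ∧ Reduces p parityLang R) →
      ∀ (F : (m : ℕ) → (Fin m → Bool) → Bool) (e : Bool) (γ : ℝ), 0 < γ →
        PolyIsolated F e γ → ¬ Distillable p R F e) ∧
    -- the quantitative form, with exponential size and nearly optimal output length
    (∀ R : Set (List Bool), Reduces p cnfSat R ∨ Reduces p majLang R ∨
        (p ≠ 2 ∧ Reduces p parityLang R) →
      ∃ (c : ℕ) (len : ℕ → ℕ), (∀ᶠ k in atTop, len k ≤ k ^ c + c) ∧
        ∀ (d : ℕ) (ε : ℝ), 0 < ε → ∃ δ : ℝ, 0 < δ ∧ ∀ᶠ k : ℕ in atTop,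
          ∀ (m Q h : ℕ) (F : (Fin m → Bool) → Bool) (b : Fin m → Bool) (S : Finset (Fin m)),
            (m : ℝ) ≤ 2 ^ ((k : ℝ) ^ δ) → S.Nonempty →
            (Q : ℝ) + h ≤ S.card * (k : ℝ) ^ (1 - ε) → IsolatedAt F b S →
          ∀ K : Compressor p m (len k) Q, K.DepthLE d → K.SizeLE (2 ^ ((k : ℝ) ^ δ)) →
            ¬ K.Correct R F (F b) ((2 : ℝ) ^ h)⁻¹) := by
  haveI : Fact p.Prime := ⟨hp⟩
  refine ⟨⟨?_, ?_⟩, ?_, ?_, ?_⟩
  · exact not_distillable (quant_of (Or.inl (Reduces_refl p _))) orFn false 1 one_pos orFn_iso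
  · exact not_distillable (quant_of (Or.inl (Reduces_refl p _))) andFn true 1 one_pos andFn_iso
  · intro R hR
    exact ⟨not_distillable (quant_of hR) orFn false 1 one_pos orFn_iso,
      not_distillable (quant_of hR) andFn true 1 one_pos andFn_iso⟩
  · intro R hR F e γ hγ hF
    exact not_distillable (quant_of hR) F e γ hγ hF
  · intro R hR
    exact quant_of hR

end Pool.Agent.Results.MP_609cce_lc.ModularDistillation
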