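import Pool.Agent.W2helper58.OD.OrMain

/-!
# OR-distillation of an NP-complete language implies `NP = coNP`

Fortnow and Santhanam: an OR-distillation of an NP-complete language gives `coNP ⊆ NP/poly`. Here the advice is
removed completely: `NP = coNP`. More generally, it is enough that the OR of `t(n)` instances of length at most `n` of an
NP-hard language can be compressed in polynomial time to `c * t(n) * log₂(n + 2)` bits, with arbitrary target sets.

Proof. Let `x` have no certificate. Consider the tree of the prefixes of the possible certificates; a node `v` gives the
NP-question whether there is a certificate with the prefix `v`, hence an instance of the compressed language, and all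
these instances are no-instances. As in the proof of Fortnow and Santhanam, for each level of the tree there are
polynomially many tuples `E` of nodes of the level such that each node `u` of the level belongs to some tuple of nodes
of the level with the same compressed instance as some tuple in `E`. If all nodes of the tuples in `E` have no certificates
below them then this holds for each such node `u`. Now the tuples of `E` are not given as advice, but they are certified by
the tree: a node has no certificate below it if both its successors are covered in this sense by the tuples for the next
level, and the nodes of the last level can be tested directly. All this together is a certificate, of polynomial length,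
that `x` has no certificate.
-/

set_option autoImplicit false

namespace Pool.Agent.Results.MP_609cce_lc.NPEqualsCoNP

open Pool.Agent.NPC

/-- `R` is NP-complete. -/
def NPComplete (R : Set (List Bool)) : Prop := InNP R ∧ NPHard R

/-- `D` is an OR-distillation algorithm for `R`. The sequence `l = (x₁, …, x_m)` is given by its code `bits l`, whose
length is at least `m` and at least each `|x_i|`, and at most `(4 max |x_i| + 2) m + 1`; so polynomial time in this length
is the same as a number of steps polynomial in `m` and `max |x_i|`. -/
structure ORDistillation (R : Set (List Bool)) (D : List (List Bool) → List Bool) : Prop where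
  poly : ∃ F : List Bool → List Bool, PolyTime F ∧ ∀ l, F (bits l) = D l
  short : ∃ q : Polynomial ℕ, ∀ (n : ℕ) (l : List (List Bool)), l ≠ [] → (∀ x ∈ l, x.length ≤ n) →
    (D l).length ≤ q.eval n
  correct : ∀ l ≠ [], (D l ∈ R ↔ ∃ x ∈ l, x ∈ R)

/-- The OR of `t n` instances of `L` of length at most `n` can be compressed to `s n` bits: a polynomial-time function
`F` maps each list `l` of `t n` strings of length at most `n` (given together with `n` in unary) to at most `s n` bits, and
for some set `T n` of strings this is an element of `T n` if and only if some element of `l` is in `L`. -/
def ORCompression (L : Set (List Bool)) (t : Polynomial ℕ) (s : ℕ → ℕ) : Prop :=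
  ∃ (F : List Bool → List Bool) (T : ℕ → Set (List Bool)), PolyTime F ∧ ∀ (n : ℕ) (l : List (List Bool)),
    l.length = t.eval n → (∀ x ∈ l, x.length ≤ n) →
      (F (bits (List.replicate n true, l))).length ≤ s n ∧
        (F (bits (List.replicate n true, l)) ∈ T n ↔ ∃ x ∈ l, x ∈ L)

/-- `NP = coNP`. -/
def Equality : Prop := ∀ K : Set (List Bool), InNP K ↔ InCoNP K

/-- If some NP-complete language has an OR-distillation algorithm, then `NP = coNP`. The same if, for some NP-hard
language `L`, some polynomial `t ≥ 1` and some constant `c`, the OR of `t n` instances of length at most `n` of `L` can be
compressed to `c * t n * log₂ (n + 2)` bits. -/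
theorem result :
    ((∃ R D, NPComplete R ∧ ORDistillation R D) → Equality) ∧
    ∀ (L : Set (List Bool)) (t : Polynomial ℕ) (s : ℕ → ℕ) (c : ℕ), NPHard L → (∀ n, 1 ≤ t.eval n) →
      (∀ n, s n ≤ c * (t.eval n * Nat.log 2 (n + 2))) → ORCompression L t s → Equality := by
  constructor
  · rintro ⟨R, D, hR, hD⟩
    obtain ⟨q, hq⟩ := hD.short
    exact Pool.Agent.W2helper58.OD.npEqCoNP_of_distillation hR.2 hD.poly hq hD.correct
  · intro L t s c hL ht hs hC
    exact Pool.Agent.W2helper58.OD.npEqCoNP_of_log c hL ht hs hC

end Pool.Agent.Results.MP_609cce_lc.NPEqualsCoNP
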