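import Pool.Agent.W2helper58.BR.Dist

/-!
# An oracle relative to which `P ≠ NP` and every NP-complete language has an OR-distillation

There is an oracle `A` such that `P^A ≠ NP^A = UP^A ∩ coUP^A` and such that every `NP^A`-complete language has an
OR-distillation algorithm in polynomial time relative to `A`; it also has `f`-distillations for all polynomial-time
computable Boolean connectives `f` (AND, majority, parity, ...). So the conjecture Q1 fails relative to an oracle with
`P ≠ NP`, and it cannot be proved from `P ≠ NP` by arguments which relativize. (Relative to every oracle such a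
distillation implies `NP = coNP`, by the proof of `NPEqualsCoNP.lean`.)

Proof. The oracle has two parts. For each name `c` (a string) there is one bit `val c`, which is hidden: the string
`(b, c, w)` is in the oracle if and only if `b = val c` and `w` is the witness of `c`, a certain string of length `|c|`.
For each tuple of instances of length at most `n` of the universal `NP`-language and each connective there is a name of
length `n + 1`, whose bits are given by the oracle, and the bit of this name is the value of the connective for the
tuple. (All this is well defined by recursion on `n`.) So `{c | val c = 1}` is in `UP ∩ coUP`, and it is `NP`-complete with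
distillations. To keep it out of `P` one runs an algorithm on a new name `c` of large length `n + 1`. The names of
the tuples of parameter at least `n` the algorithm asks for are new names, different from each other, and the witnesses are
chosen such that they are not asked for; so the answers do not depend on `val c`, although the algorithm may ask for the
names of tuples of instances which depend on `val c`, of names of such tuples, and so on. All other tuples of parameter at
least `n` get one of two standard names.
-/

set_option autoImplicit false

namespace Pool.Agent.Results.MP_609cce_lc.RelativizedDistillation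

open Pool.Agent.NPC Pool.Agent.H620R2.Gauge Pool.Agent.W2helper58.BR

/-- `D` is an OR-distillation algorithm for `R` relative to the oracle `A`. The sequence `l = (x₁, …, x_m)` is given by its
code `bits l`, whose length is at least `m` and at least each `|x_i|`, and at most `(4 max |x_i| + 2) m + 1`. -/
structure ORDistillation (A : Oracle) (R : Set (List Bool)) (D : List (List Bool) → List Bool) : Prop where
  poly : ∃ F : List Bool → List Bool, IsFP A F ∧ ∀ l, F (bits l) = D l
  short : ∃ q : Polynomial ℕ, ∀ (n : ℕ) (l : List (List Bool)), (∀ x ∈ l, x.length ≤ n) → (D l).length ≤ q.eval n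
  correct : ∀ l, D l ∈ R ↔ ∃ x ∈ l, x ∈ R

/-- `D` is an `f`-distillation algorithm for `R` relative to the oracle `A`: `D (x₁, …, x_m)` is in `R` if and only if the
value of `f` at the truth values of `x₁ ∈ R`, …, `x_m ∈ R` is `true`. -/
structure Distillation (A : Oracle) (f : List Bool → Bool) (R : Set (List Bool))
    (D : List (List Bool) → List Bool) : Prop where
  poly : ∃ F : List Bool → List Bool, IsFP A F ∧ ∀ l, F (bits l) = D l
  short : ∃ q : Polynomial ℕ, ∀ (n : ℕ) (l : List (List Bool)), (∀ x ∈ l, x.length ≤ n) → (D l).length ≤ q.eval n
  correct : ∀ (l : List (List Bool)) (v : List Bool), List.Forall₂ (fun x b => x ∈ R ↔ b = true) l v →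
    (D l ∈ R ↔ f v = true)

/-- There is an oracle `A` such that
(1) some language in `UP^A ∩ coUP^A` is not in `P^A`;
(2) `NP^A = UP^A ∩ coUP^A`;
(3) there are `NP^A`-complete languages;
(4) every `NP^A`-complete language has an OR-distillation relative to `A`;
(5) every `NP^A`-complete language has an `f`-distillation relative to `A`, for every polynomial-time computable `f`. -/
theorem result : ∃ A : Oracle,
    (∃ L, IsUP A L ∧ IsUP A Lᶜ ∧ ¬ IsP A L) ∧
    (∀ L, IsNP A L → IsUP A L ∧ IsUP A Lᶜ) ∧
    (∃ R, Complete A R) ∧
    (∀ R, Complete A R → ∃ D, ORDistillation A R D) ∧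
    (∀ R, Complete A R → ∀ f : List Bool → Bool, PolyTime (fun v => [f v]) → ∃ D, Distillation A f R D) := by
  classical
  have hcount : Countable {F : List Bool → List Bool | PolyTime F} := countable_polyTime.to_subtype
  have hpc : ∀ f : List Bool → Bool, PolyTime (fun v => [f v]) → Poly f := by
    intro f hf
    have h1 : Poly (fun v => [f v]) := Pool.Agent.H622R2.poly_of_polyTime hf
    have h2 : Poly (fun v => ([f v] : List Bool).head?.getD false) :=
      NPC.Poly.optGetD (NPC.Poly.head? h1) (NPC.Poly.const _)
    exact h2.congr fun v => by simp
  obtain ⟨Φ, hΦ⟩ : ∃ Φ : ℕ → {f : List Bool → Bool // PolyTime (fun v => [f v])}, Function.Surjective Φ := by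
    have h1 : Countable {f : List Bool → Bool // PolyTime (fun v => [f v])} := by
      let G : {f : List Bool → Bool // PolyTime (fun v => [f v])} → {F : List Bool → List Bool | PolyTime F} :=
        fun f => ⟨fun v => [f.1 v], f.2⟩
      have hG : Function.Injective G := by
        intro f g h
        apply Subtype.ext
        funext v
        have h2 := congrFun (congrArg Subtype.val h) v
        simpa [G] using h2
      exact hG.countable
    have h2 : Nonempty {f : List Bool → Bool // PolyTime (fun v => [f v])} :=
      ⟨⟨fun _ => false, Pool.Agent.H622R2.polyTime_of_poly_list (NPC.Poly.const _)⟩⟩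
    exact exists_surjective_nat _
  have hor : PolyTime (fun v : List Bool => [v.any (fun b => b)]) := by
    refine Pool.Agent.H622R2.polyTime_of_poly_list (NPC.Poly.cons ?_ (NPC.Poly.const _))
    exact NPC.Poly.any (l := fun v : List Bool => v) (p := fun _ b => b) NPC.Poly.id (NPC.Poly.snd NPC.Poly.id)
  obtain ⟨i0, hi0⟩ := hΦ ⟨_, hor⟩
  obtain ⟨A, h1, h2, h3, h4⟩ := main (fun i => (Φ i).1) i0 (by intro b; rw [hi0]; simp)
  have h5 : ∀ R, Complete A R → ∀ f : List Bool → Bool, PolyTime (fun v => [f v]) → ∃ D, Distillation A f R D := by
    intro R hR f hf
    obtain ⟨i, hi⟩ := hΦ ⟨f, hf⟩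
    obtain ⟨D, k1, k2, k3⟩ := h4 i R hR
    rw [hi] at k3
    exact ⟨D, k1, k2, k3⟩
  refine ⟨A, h1, h2, h3, fun R hR => ?_, h5⟩
  obtain ⟨D, hD⟩ := h5 R hR _ hor
  refine ⟨D, hD.poly, hD.short, fun l => ?_⟩
  have h6 : List.Forall₂ (fun (x : List Bool) (b : Bool) => x ∈ R ↔ b = true) l (l.map (fun x => decide (x ∈ R))) := by
    rw [List.forall₂_map_right_iff]
    exact List.forall₂_same.2 fun x _ => by simp
  rw [hD.correct l _ h6]
  simp

end Pool.Agent.Results.MP_609cce_lc.RelativizedDistillation
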